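import Pool.Agent.Lib.MP_ac28de_co.Rigid

namespace Pool.Agent.Results.MP_ac28de_co.AutGroup

open Pool.Agent.Lib.MP_ac28de_co

/-- The automorphism group of the tree of upward paths in the Young-Fibonacci lattice: the automorphisms are
exactly the transformations `act ε`, one for each function `ε` on the set of switches (chains whose last word
is `2⋯21`), and they compose as in an iterated wreath product. -/
theorem result : ∃ Φ : (Switch → Bool) ≃ (pathTree ≃g pathTree),
    (∀ (ε : Switch → Bool) (v : Vertex), (Φ ε v).1 = act ε v.1) ∧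
    ∀ (ε δ : Switch → Bool), ∃ τ : Switch → Switch, (∀ s : Switch, (τ s).1 = Φ δ s.1) ∧
      ∀ v : Vertex, Φ ε (Φ δ v) = Φ (fun s => xor (δ s) (ε (τ s))) v :=
  ⟨equiv, fun _ _ => rfl, fun ε δ => ⟨tau δ, fun _ => rfl, fun v => Subtype.ext (act_comp ε δ v.2)⟩⟩

end Pool.Agent.Results.MP_ac28de_co.AutGroup
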